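import Pool.Agent.Mg.F53c2ae.Gc8ee5f
import Pool.Agent.Mg.F53c2ae.Geb9a30

namespace Pool.Agent.Results.MP_53c2ae_co.SecondOrderUpper

open Finset Pool.Agent.MP_53c2ae_co

/-- Upper bound for the Ramsey number of a triangle against a clique of size `k + 1`:
`G` is the red graph and its complement the blue graph. -/
theorem result : ∀ (k N : ℕ), 64 ≤ k →
    (k : ℝ) ^ 2 / (Real.log k - 0.764 + (Real.log k + 0.77) / k) < N →
    ∀ G : SimpleGraph (Fin N), ¬ G.CliqueFree 3 ∨ ¬ Gᶜ.CliqueFree (k + 1) := by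
  intro k N hk hN G
  classical
  by_contra hcon
  rw [not_or, not_not, not_not] at hcon
  obtain ⟨h3, hc⟩ := hcon
  have htf : ∀ a b c, G.Adj a b → G.Adj a c → ¬ G.Adj b c := by
    intro a b c hab hac hbc
    exact h3 {a, b, c} (SimpleGraph.is3Clique_triple_iff.2 ⟨hab, hac, hbc⟩)
  have hind : ∀ I : Finset (Fin N), (∀ a ∈ I, ∀ b ∈ I, ¬ G.Adj a b) → I.card ≤ k := by
    intro I hI
    by_contra hlt
    obtain ⟨J, hJ, hJc⟩ := Finset.exists_subset_card_eq (show k + 1 ≤ I.card by omega)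
    refine hc J ⟨?_, hJc⟩
    intro a ha b hb hab
    exact (SimpleGraph.compl_adj G a b).2 ⟨hab, hI a (hJ ha) b (hJ hb)⟩
  obtain ⟨I, _, hI2, hI3⟩ := ok_phi htf _ (univ : Finset (Fin N)) (Nat.lt_succ_self _)
  have hdeg : ∀ v : Fin N, dg G univ v ≤ k := fun v =>
    hind (nb G univ v) fun a ha b hb => htf v a b (mem_nb.1 ha).2 (mem_nb.1 hb).2
  have h1 : (N : ℝ) * wt k ≤ phi G (univ : Finset (Fin N)) := by
    have h := card_nsmul_le_sum (univ : Finset (Fin N)) (fun v => wt (dg G univ v)) (wt k)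
      (fun v _ => wt_anti (hdeg v))
    rw [nsmul_eq_mul, card_univ, Fintype.card_fin] at h
    exact h
  have h2 : (I.card : ℝ) ≤ k := by exact_mod_cast hind I hI2
  have h4 := hh_ge hk
  unfold hh at h4
  have hk' : (64 : ℝ) ≤ k := by exact_mod_cast hk
  have hk0 : (0 : ℝ) < k := by linarith
  have hl : 1 ≤ Real.log k := by
    rw [Real.le_log_iff_exp_le hk0]
    have := Real.exp_one_lt_d9
    linarith
  have hpos : 0 < Real.log k - 0.764 + (Real.log k + 0.77) / k := by
    have : 0 ≤ (Real.log k + 0.77) / k := by positivity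
    linarith
  rw [div_lt_iff₀ hpos] at hN
  have hN0 : (0 : ℝ) ≤ N := Nat.cast_nonneg N
  have h5 : (N : ℝ) * (Real.log k - 0.764 + (Real.log k + 0.77) / k) ≤ N * (k * wt k) :=
    mul_le_mul_of_nonneg_left h4 hN0
  have h6 : (k : ℝ) * (N * wt k) ≤ k * k := mul_le_mul_of_nonneg_left (by linarith) hk0.le
  nlinarith

end Pool.Agent.Results.MP_53c2ae_co.SecondOrderUpper
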